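import Mathlib

/-!
# MP_62e324_al, Q1: the strong rank condition passes to Ore extensions with surjective `σ`
-/

namespace Pool.Agent.Results.MP_62e324_al.OreRSRC

open scoped MulOpposite Kronecker

universe u v

/-- The right strong rank condition (RSRC): no homomorphism of right `A`-modules
`A^(n+1) → A^n`, `n ≥ 1`, is injective.  (Right `A`-modules are modules over `Aᵐᵒᵖ`.) -/
def RSRC (A : Type*) [Ring A] : Prop :=
  ∀ n : ℕ, 1 ≤ n → ∀ f : (Fin (n+1) → A) →ₗ[Aᵐᵒᵖ] (Fin n → A), ¬ Function.Injective f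

/-- `δ` is a `σ`-derivation: additive and `δ(rs) = δ(r)s + σ(r)δ(s)`. -/
structure IsSkewDerivation {R : Type*} [Ring R] (σ : R →+* R) (δ : R → R) : Prop where
  add : ∀ r s, δ (r + s) = δ r + δ s
  mul : ∀ r s, δ (r * s) = δ r * s + σ r * δ s

/-- The ring `A`, with `ι : R → A` and `x : A`, is the Ore extension `R[x;σ,δ]`: every element
of `A` is `∑ ι(r_i) x^i` for exactly one finitely supported sequence `(r_i)` of coefficients in
`R` (written on the left), and `x r = σ(r) x + δ(r)`. -/
structure IsOreExtension {R : Type*} {A : Type*} [Ring R] [Ring A] (σ : R →+* R) (δ : R → R)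
    (ι : R →+* A) (x : A) : Prop where
  rule : ∀ r, x * ι r = ι (σ r) * x + ι (δ r)
  basis : ∀ a : A, ∃! c : ℕ →₀ R, a = c.sum fun i r => ι r * x ^ i

variable {R : Type u} {A : Type v} [Ring R] [Ring A]

/-- `F_d = ∑_{i ≤ d} x^i R` -/
def InF (ι : R →+* A) (x : A) (d : ℕ) (a : A) : Prop :=
  ∃ c : ℕ → R, a = ∑ i ∈ Finset.range (d+1), x ^ i * ι (c i)

theorem InF.add {ι : R →+* A} {x : A} {d : ℕ} {a b : A} (ha : InF ι x d a) (hb : InF ι x d b) :
    InF ι x d (a + b) := by
  obtain ⟨c, rfl⟩ := ha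
  obtain ⟨c', rfl⟩ := hb
  refine ⟨fun i => c i + c' i, ?_⟩
  rw [← Finset.sum_add_distrib]
  exact Finset.sum_congr rfl fun i _ => by rw [map_add, mul_add]

theorem InF.zero {ι : R →+* A} {x : A} {d : ℕ} : InF ι x d 0 :=
  ⟨fun _ => 0, by simp⟩

theorem InF.sum {ι : R →+* A} {x : A} {d : ℕ} {κ : Type*} (s : Finset κ) (a : κ → A)
    (ha : ∀ k ∈ s, InF ι x d (a k)) : InF ι x d (∑ k ∈ s, a k) := by
  classical
  induction s using Finset.induction_on with
  | empty => simpa using InF.zero
  | insert k s hk ih =>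
    rw [Finset.sum_insert hk]
    exact (ha k (by simp)).add (ih fun j hj => ha j (by simp [hj]))

theorem InF.mono {ι : R →+* A} {x : A} {d e : ℕ} (h : d ≤ e) {a : A} (ha : InF ι x d a) :
    InF ι x e a := by
  obtain ⟨c, rfl⟩ := ha
  refine ⟨fun i => if i ≤ d then c i else 0, ?_⟩
  rw [← Finset.sum_subset (Finset.range_subset_range.2 (by omega : d + 1 ≤ e + 1))]
  · apply Finset.sum_congr rfl
    intro i hi
    have : i ≤ d := by simpa [Nat.lt_succ_iff] using hi
    simp [this]
  · intro i _ hi
    have : ¬ i ≤ d := by simpa [Nat.lt_succ_iff] using hi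
    simp [this]

theorem InF.mul_right {ι : R →+* A} {x : A} {d : ℕ} {a : A} (ha : InF ι x d a) (r : R) :
    InF ι x d (a * ι r) := by
  obtain ⟨c, rfl⟩ := ha
  refine ⟨fun i => c i * r, ?_⟩
  rw [Finset.sum_mul]
  exact Finset.sum_congr rfl fun i _ => by rw [map_mul, mul_assoc]

theorem InF.x_mul {ι : R →+* A} {x : A} {d : ℕ} {a : A} (ha : InF ι x d a) :
    InF ι x (d+1) (x * a) := by
  obtain ⟨c, rfl⟩ := ha
  refine ⟨fun i => if i = 0 then 0 else c (i-1), ?_⟩
  rw [Finset.sum_range_succ' _ (d+1), Finset.mul_sum]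
  simp only [if_true, map_zero, mul_zero, add_zero]
  apply Finset.sum_congr rfl
  intro i _
  rw [if_neg (Nat.succ_ne_zero i), Nat.add_sub_cancel, ← mul_assoc, ← pow_succ']

theorem InF.const {ι : R →+* A} {x : A} (r : R) : InF ι x 0 (ι r) := ⟨fun _ => r, by simp⟩

theorem InF.pow_mul {ι : R →+* A} {x : A} {d : ℕ} {a : A} (ha : InF ι x d a) (i : ℕ) :
    InF ι x (i+d) (x ^ i * a) := by
  induction i with
  | zero => simpa using ha
  | succ i ih =>
    rw [pow_succ', mul_assoc, show i + 1 + d = (i + d) + 1 by ring]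
    exact ih.x_mul

/-- `R x^i ⊆ F_i` when `R x ⊆ x R + R`. -/
theorem InF.const_mul_pow {ι : R →+* A} {x : A}
    (hx : ∀ r, ∃ s t, ι r * x = x * ι s + ι t) (i : ℕ) : ∀ r : R, InF ι x i (ι r * x ^ i) := by
  induction i with
  | zero => intro r; simpa using InF.const r
  | succ i ih =>
    intro r
    obtain ⟨s, t, h⟩ := hx r
    rw [pow_succ', ← mul_assoc, h, add_mul, mul_assoc]
    exact (ih s).x_mul.add ((ih t).mono (Nat.le_succ i))

theorem InF.mul {ι : R →+* A} {x : A} (hx : ∀ r, ∃ s t, ι r * x = x * ι s + ι t)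
    {d e : ℕ} {a b : A} (ha : InF ι x d a) (hb : InF ι x e b) : InF ι x (d + e) (a * b) := by
  obtain ⟨c, rfl⟩ := ha
  obtain ⟨c', rfl⟩ := hb
  rw [Finset.sum_mul]
  apply InF.sum
  intro i hi
  rw [Finset.mul_sum]
  apply InF.sum
  intro j hj
  have hi' : i ≤ d := by simpa [Nat.lt_succ_iff] using hi
  have hj' : j ≤ e := by simpa [Nat.lt_succ_iff] using hj
  have e1 : x ^ i * ι (c i) * (x ^ j * ι (c' j)) = x ^ i * ((ι (c i) * x ^ j) * ι (c' j)) := by
    simp only [mul_assoc]
  rw [e1]
  exact (((InF.const_mul_pow hx j (c i)).mul_right (c' j)).pow_mul i).mono (by omega)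

/-- Kronecker products of injective matrices are injective (over any ring). -/
theorem kronecker_injective {I J I' J' : Type} [Fintype J] [Fintype J']
    (M : Matrix I J A) (N : Matrix I' J' A) (hM : ∀ v : J → A, M.mulVec v = 0 → v = 0)
    (hN : ∀ v : J' → A, N.mulVec v = 0 → v = 0) :
    ∀ v : J × J' → A, (M ⊗ₖ N).mulVec v = 0 → v = 0 := by
  intro v hv
  have h1 : ∀ i', (fun j => ∑ j', N i' j' * v (j, j')) = 0 := by
    intro i'
    apply hM
    ext i
    have := congrFun hv (i, i')
    simp only [Matrix.mulVec, dotProduct, Matrix.kroneckerMap_apply, Pi.zero_apply] at this ⊢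
    rw [Fintype.sum_prod_type] at this
    rw [← this]
    apply Finset.sum_congr rfl
    intro j _
    rw [Finset.mul_sum]
    apply Finset.sum_congr rfl
    intro j' _
    rw [mul_assoc]
  have h2 : ∀ j, (fun j' => v (j, j')) = 0 := by
    intro j
    apply hN
    ext i'
    exact congrFun (h1 i') j
  ext ⟨j, j'⟩
  exact congrFun (h2 j) j'

theorem exists_powers {ι : R →+* A} {x : A} (hx : ∀ r, ∃ s t, ι r * x = x * ι s + ι t)
    {n d : ℕ} (M : Matrix (Fin n) (Fin (n+1)) A) (hM : ∀ v, M.mulVec v = 0 → v = 0)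
    (hd : ∀ i j, InF ι x d (M i j)) (t : ℕ) :
    ∃ (I J : Type) (_ : Fintype I) (_ : Fintype J) (N : Matrix I J A),
      Fintype.card I = n ^ t ∧ Fintype.card J = (n+1) ^ t ∧ (∀ v, N.mulVec v = 0 → v = 0) ∧
      ∀ i j, InF ι x (t * d) (N i j) := by
  induction t with
  | zero =>
    refine ⟨Unit, Unit, inferInstance, inferInstance, 1, by simp, by simp, ?_, ?_⟩
    · intro v hv
      rwa [Matrix.one_mulVec] at hv
    · intro i j
      rw [show (1 : Matrix Unit Unit A) i j = ι 1 by simp]
      simpa using InF.const (ι := ι) (x := x) (1 : R)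
  | succ t ih =>
    obtain ⟨I, J, _, _, N, hI, hJ, hN, hNd⟩ := ih
    refine ⟨Fin n × I, Fin (n+1) × J, inferInstance, inferInstance, M ⊗ₖ N, ?_, ?_, ?_, ?_⟩
    · rw [Fintype.card_prod, hI, Fintype.card_fin, pow_succ']
    · rw [Fintype.card_prod, hJ, Fintype.card_fin, pow_succ']
    · exact kronecker_injective M N hM hN
    · rintro ⟨i, i'⟩ ⟨j, j'⟩
      rw [Matrix.kroneckerMap_apply, show (t + 1) * d = d + t * d by ring]
      exact InF.mul hx (hd i j) (hNd i' j')

/-- RSRC in terms of matrices. -/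
theorem rsrc_matrix (hR : RSRC R) {I J : Type} [Fintype I] [Fintype J]
    (h1 : 1 ≤ Fintype.card I) (h2 : Fintype.card I < Fintype.card J) (W : Matrix I J R)
    (hW : ∀ v, W.mulVec v = 0 → v = 0) : False := by
  classical
  set m := Fintype.card I with hm
  let e : Fin m ≃ I := (Fintype.equivFin I).symm
  obtain ⟨g⟩ : Nonempty (Fin (m+1) ↪ J) := by
    apply Function.Embedding.nonempty_of_card_le
    simpa using h2
  let f : (Fin (m+1) → R) →ₗ[Rᵐᵒᵖ] (Fin m → R) :=
    { toFun := fun v i => ∑ k, W (e i) (g k) * v k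
      map_add' := by
        intro v w
        ext i
        simp [mul_add, Finset.sum_add_distrib]
      map_smul' := by
        intro r v
        ext i
        simp [Finset.sum_mul, mul_assoc] }
  apply hR m h1 f
  rw [injective_iff_map_eq_zero]
  intro v hv
  have h3 : Function.extend g v 0 = 0 := by
    apply hW
    ext i
    have h4 := congrFun hv (e.symm i)
    have h5 : ∑ k, W i (g k) * v k = 0 := by
      have h6 : (f v) (e.symm i) = ∑ k, W i (g k) * v k := by
        show ∑ k, W (e (e.symm i)) (g k) * v k = _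
        rw [e.apply_symm_apply]
      rw [← h6, h4]
      rfl
    show ∑ j, W i j * Function.extend g v 0 j = 0
    rw [← h5, ← Finset.sum_subset (Finset.subset_univ (Finset.univ.map g))]
    · rw [Finset.sum_map]
      apply Finset.sum_congr rfl
      intro k _
      rw [g.injective.extend_apply]
    · intro j _ hj
      have : ¬ ∃ k, g k = j := by
        rintro ⟨k, rfl⟩
        exact hj (by simp)
      rw [Function.extend_apply' _ _ _ this]
      simp
  ext k
  have := congrFun h3 (g k)
  rwa [g.injective.extend_apply] at this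

theorem exists_t (n d : ℕ) (hn : 1 ≤ n) : ∃ t : ℕ, (t * d + 1) * n ^ t < (n + 1) ^ t := by
  have hr : (1 : ℝ) < ((n : ℝ) + 1) / n := by
    rw [one_lt_div (by positivity)]
    linarith
  have h1 := tendsto_pow_const_div_const_pow_of_one_lt 1 hr
  have h2 := tendsto_pow_const_div_const_pow_of_one_lt 0 hr
  have h3 := (h1.const_mul (d : ℝ)).add h2
  simp only [mul_zero, add_zero] at h3
  obtain ⟨t, ht⟩ := (h3.eventually (gt_mem_nhds (zero_lt_one))).exists
  refine ⟨t, ?_⟩
  have hpos : (0 : ℝ) < (((n : ℝ) + 1) / n) ^ t := by positivity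
  have hn0 : (0 : ℝ) < (n : ℝ) ^ t := by positivity
  rw [← mul_div_assoc, ← add_div, div_lt_one hpos, div_pow, lt_div_iff₀ hn0] at ht
  have : (((t * d + 1) * n ^ t : ℕ) : ℝ) < (((n + 1) ^ t : ℕ) : ℝ) := by
    push_cast
    calc ((t : ℝ) * d + 1) * (n : ℝ) ^ t = (d * (t : ℝ) ^ 1 + (t : ℝ) ^ 0) * (n : ℝ) ^ t := by ring
      _ < _ := ht
  exact_mod_cast this

/-- General form: `A` is generated over `R` by `x`, and `R x ⊆ x R + R`. -/
theorem general (ι : R →+* A) (hι : Function.Injective ι) (x : A)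
    (hx : ∀ r, ∃ s t, ι r * x = x * ι s + ι t)
    (hgen : ∀ a : A, ∃ c : ℕ →₀ R, a = c.sum fun i r => ι r * x ^ i)
    (hR : RSRC R) : RSRC A := by
  classical
  intro n hn f hf
  have hin : ∀ a : A, ∃ d, InF ι x d a := by
    intro a
    obtain ⟨c, rfl⟩ := hgen a
    refine ⟨c.support.sup id, ?_⟩
    apply InF.sum
    intro i hi
    exact (InF.const_mul_pow hx i (c i)).mono (Finset.le_sup (f := id) hi)
  let M : Matrix (Fin n) (Fin (n+1)) A := fun i j => f (Pi.single j 1) i
  have hMf : ∀ v, M.mulVec v = f v := by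
    intro v
    ext i
    have hv : v = ∑ j, MulOpposite.op (v j) • (Pi.single j (1 : A) : Fin (n+1) → A) := by
      ext k
      simp [Finset.sum_apply, Pi.single_apply]
    conv_rhs => rw [hv]
    rw [map_sum, Finset.sum_apply]
    simp only [map_smul, Pi.smul_apply, op_smul_eq_mul]
    rfl
  have hM : ∀ v, M.mulVec v = 0 → v = 0 := by
    intro v hv
    rw [hMf] at hv
    exact hf (by rw [hv, map_zero])
  choose D hD using fun (p : Fin n × Fin (n+1)) => hin (M p.1 p.2)
  set d := Finset.univ.sup D with hd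
  have hMd : ∀ i j, InF ι x d (M i j) := fun i j =>
    (hD (i, j)).mono (Finset.le_sup (f := D) (Finset.mem_univ _))
  obtain ⟨t, ht⟩ := exists_t n d hn
  obtain ⟨I, J, _, _, N, hI, hJ, hN, hNd⟩ := exists_powers hx M hM hMd t
  choose c hc using hNd
  let W : Matrix (Fin (t * d + 1) × I) J R := fun p j => c p.2 j p.1
  refine rsrc_matrix hR (I := Fin (t * d + 1) × I) (J := J) ?_ ?_ W ?_
  · rw [Fintype.card_prod, hI, Fintype.card_fin]
    exact Nat.mul_pos (Nat.succ_pos _) (pow_pos hn t)
  · rw [Fintype.card_prod, hI, hJ, Fintype.card_fin]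
    exact ht
  · intro v hv
    have h1 : N.mulVec (fun j => ι (v j)) = 0 := by
      ext i
      show ∑ j, N i j * ι (v j) = 0
      have h2 : ∀ k : Fin (t * d + 1), ∑ j, ι (c i j k) * ι (v j) = 0 := by
        intro k
        have := congrFun hv (k, i)
        have h3 : ∑ j, c i j k * v j = 0 := this
        have h4 := congrArg ι h3
        simpa [map_sum] using h4
      calc ∑ j, N i j * ι (v j)
          = ∑ j, ∑ k ∈ Finset.range (t * d + 1), x ^ k * (ι (c i j k) * ι (v j)) := by
            apply Finset.sum_congr rfl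
            intro j _
            rw [hc i j, Finset.sum_mul]
            apply Finset.sum_congr rfl
            intro k _
            rw [mul_assoc]
        _ = ∑ k ∈ Finset.range (t * d + 1), x ^ k * ∑ j, ι (c i j k) * ι (v j) := by
            rw [Finset.sum_comm]
            apply Finset.sum_congr rfl
            intro k _
            rw [Finset.mul_sum]
        _ = 0 := by
            apply Finset.sum_eq_zero
            intro k hk
            have := h2 ⟨k, Finset.mem_range.1 hk⟩
            simp only at this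
            rw [this, mul_zero]
    have h5 := hN _ h1
    ext j
    have := congrFun h5 j
    exact hι (by simpa using this)

/-- **Full answer to Q1 (yes).** If `R` satisfies RSRC, `σ : R → R` is a surjective ring
endomorphism and `δ` a `σ`-derivation, then the Ore extension `A = R[x;σ,δ]` satisfies RSRC. -/
theorem result (R : Type u) (A : Type v) [Ring R] [Ring A] (hR : RSRC R) (σ : R →+* R)
    (hσ : Function.Surjective σ) (δ : R → R) (_hδ : IsSkewDerivation σ δ)
    (ι : R →+* A) (x : A) (hA : IsOreExtension σ δ ι x) : RSRC A := by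
  refine general ι ?_ x ?_ (fun a => (hA.basis a).exists) hR
  · intro r s hrs
    have h1 : (Finsupp.single 0 r : ℕ →₀ R) = Finsupp.single 0 s := by
      apply (hA.basis (ι r)).unique
      · simp [Finsupp.sum_single_index]
      · simp [Finsupp.sum_single_index, hrs]
    simpa using DFunLike.congr_fun h1 0
  · intro r
    obtain ⟨s, rfl⟩ := hσ r
    refine ⟨s, -δ s, ?_⟩
    rw [hA.rule s, map_neg]
    abel

end Pool.Agent.Results.MP_62e324_al.OreRSRC
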